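import Pool.Agent.H62.ImpFB3

set_option autoImplicit false

namespace Pool.Agent.Results.MP_634bde_lc.NotFB
open H62.ImpEq H62.ImpFB Tm

def le (p q : Tm) : Tm × Tm := (imp p q, top)
def bv (k : ℕ) (p : Bool) : Tm := var (if p then k + 1 else k)

def S (n : ℕ) : Set (Tm × Tm) :=
  {le (var 3) (comp (var 1) (var 2)), le (comp top (var 1)) (un (bv 6 false) (bv 6 true)),
    le (comp (var 2) top) (un (bv 8 false) (bv 8 true))} ∪
  Set.range (fun i : Fin (n + 1) => le (var 4) (comp top (var (2 * i + 10)))) ∪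
  Set.range (fun i : Fin (n + 1) => le (var 5) (comp (var (2 * i + 11)) top)) ∪
  Set.range fun x : {x : Fin (n + 1) × Fin (n + 1) × Bool × Bool // ¬R n x.1 x.2.1 x.2.2.1 x.2.2.2} =>
    le (comp (comp (var (2 * x.1.1 + 10)) (var 3)) (var (2 * x.1.2.1 + 11)))
      (imp (comp (bv 6 x.1.2.2.1) (bv 8 x.1.2.2.2)) (var 0))

lemma S_fin (n : ℕ) : (S n).Finite :=
  (((Set.toFinite _).union (Set.finite_range _)).union (Set.finite_range _)).union (Set.finite_range _)

lemma unsat {n : ℕ} (σ τ : Fin (n + 1) → Bool) : ¬∀ i j : Fin (n + 1), R n i j (σ i) (τ j) := fun h => by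
  have : ∀ i, σ i = τ 0 := fun i => by
    induction i using Fin.induction with
    | zero => simpa using (h 0 0).1 (.inl rfl)
    | succ i ih => rw [← ih, Bool.eq_iff_iff, (h i.succ i.succ).1 (.inl rfl), (h i.castSucc i.succ).1 (.inr rfl)]
  exact (h (.last n) 0).2 ⟨rfl, rfl⟩ (by rw [this])

lemma valid (n : ℕ) : Valid (un (comp (comp (var 4) (var 3)) (var 5)) (Z (S_fin n).toFinset.toList))
    (un (var 0) (Z (S_fin n).toFinset.toList)) := valid_of _ _ _ fun X T v hT hv h0 hL => by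
  have h : ∀ p q, le p q ∈ S n → ∀ x y, (x, y) ∈ eval T v p → (x, y) ∈ eval T v q := fun p q h x y a => by
    have := hL (le p q) (by simpa using h)
    simp only [le, eval_top hv, eval] at this
    exact (this.ge (eval_sub hT hv p a)).resolve_left fun b => b.2 a
  rw [eval, eval, eval, eval, eval, eval, h0]
  refine Set.eq_empty_of_forall_notMem fun _ ⟨y, ⟨x, a1, a2⟩, a3⟩ => ?_
  obtain ⟨z, b1, b2⟩ := h _ _ (.inl (.inl (.inl (.inl rfl)))) _ _ a2
  choose u u1 u2 using fun i => h _ _ (.inl (.inl (.inr ⟨i, rfl⟩))) _ _ a1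
  choose w w1 w2 using fun i => h _ _ (.inl (.inr ⟨i, rfl⟩)) _ _ a3
  have c1 : ∀ i, ∃ p, (u i, z) ∈ eval T v (bv 6 p) := fun i => by
    simpa [eval_un hT hv] using h _ _ (.inl (.inl (.inl (.inr (.inl rfl))))) (u i) z
      ⟨x, (eval_top hv).ge (hv _ (u2 i)), b1⟩
  have c2 : ∀ i, ∃ p, (z, w i) ∈ eval T v (bv 8 p) := fun i => by
    simpa [eval_un hT hv] using h _ _ (.inl (.inl (.inl (.inr (.inr rfl))))) z (w i)
      ⟨y, b2, (eval_top hv).ge (hv _ (w1 i))⟩
  choose σ hσ using c1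
  choose τ hτ using c2
  refine unsat σ τ fun i j => by_contra fun hc => ?_
  rcases h _ _ (.inr ⟨⟨(i, j, σ i, τ j), hc⟩, rfl⟩) (u i) (w j) ⟨y, ⟨x, u2 i, a2⟩, w1 j⟩ with e | e
  · exact e.2 ⟨z, hσ i, hτ j⟩
  · exact (h0.le e).elim

def val (k : ℕ) : Set At :=
  {a | if k = 0 then False else if k = 1 then a.s = 2 ∧ a.t = 3 else if k = 2 then a.s = 3 ∧ a.t = 4 else
    if k = 3 then a.s = 2 ∧ a.t = 4 ∧ a.col else if k = 4 then a.s = 0 ∧ a.t = 2 else
    if k = 5 then a.s = 4 ∧ a.t = 6 else if k < 8 then a.t = 3 ∧ (a.bit ↔ k = 7) else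
    if k < 10 then a.s = 3 ∧ (a.bit ↔ k = 9) else
    if k % 2 = 0 then a.s = 1 ∧ a.t = 2 ∧ 2 * a.i + 10 = k else a.s = 4 ∧ a.t = 5 ∧ 2 * a.j + 11 = k}

theorem result (E : Set (Tm × Tm)) (hE : E.Finite) (hv : ∀ e ∈ E, Valid e.1 e.2) :
    ∃ (A : Type) (i c : A → A → A), (∀ e ∈ E, Sat i c e.1 e.2) ∧ ∃ s t : Tm, Valid s t ∧ ¬Sat i c s t := by
  obtain ⟨n, hn⟩ := ((Filter.eventually_all_finite hE).mpr fun e he => sat_of_valid (hv e he)).exists
  refine ⟨_, ii, cc n, hn, _, _, valid n, fun h => ?_⟩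
  have key : ∀ p q, (∀ a ∈ ev ii (cc n) val p, a ∈ ev ii (cc n) val q) →
      ev ii (cc n) val (le p q).1 = ev ii (cc n) val (le p q).2 := fun p q h => by
    simp only [le, top, ev, ii, Set.compl_union_self]
    exact Set.eq_univ_of_forall fun a => or_iff_not_imp_left.mpr fun b => h a (not_not.mp b)
  have := of_sat h val (by simp [val]) fun q hq => by
    simp only [Finset.mem_toList, Set.Finite.mem_toFinset] at hq
    rcases hq with (((rfl | rfl | rfl) | ⟨i, rfl⟩) | ⟨i, rfl⟩) | ⟨⟨⟨i, j, p, q⟩, hx⟩, rfl⟩ <;> refine key _ _ ?_ <;>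
      simp only [ev, ii, cc, un, top, bv, Set.compl_union_self, Set.mem_univ, true_and, Set.mem_ofPred_eq,
        Set.mem_union, Set.mem_compl_iff]
    · exact fun a h => ⟨⟨2, 3, 0, 0, False, False⟩, by simp [val], ⟨3, 4, 0, 0, False, False⟩, by simp [val],
        by simp only [val, tri, red, Set.mem_ofPred_eq] at *; grind⟩
    · simp only [val, tri, Set.mem_ofPred_eq]; grind
    · simp only [val, tri, Set.mem_ofPred_eq]; grind
    · exact fun a h => ⟨⟨0, 1, 0, 0, False, False⟩, ⟨1, 2, i, 0, False, False⟩, by simp [val],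
        by simp only [val, tri, red, Set.mem_ofPred_eq] at *; grind⟩
    · exact fun a h => ⟨⟨4, 5, 0, i, False, False⟩, by simp [val], ⟨5, 6, 0, 0, False, False⟩,
        by simp only [val, tri, red, Set.mem_ofPred_eq] at *; grind⟩
    · rintro a ⟨b, ⟨c, h1, d, h2, h3⟩, e, h4, h5⟩
      refine .inl fun ⟨f, h6, g, h7, h8⟩ => hx ?_
      simp only [val, tri, red, R, Set.mem_ofPred_eq] at *
      cases p <;> cases q <;> grind
  have e : (⟨0, 6, 0, 0, False, False⟩ : At) ∈ ev ii (cc n) val (comp (comp (var 4) (var 3)) (var 5)) := by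
    refine ⟨⟨0, 4, 0, 0, False, False⟩, ⟨⟨0, 2, 0, 0, False, False⟩, ?_,
      ⟨2, 4, 0, 0, True, False⟩, ?_, ?_⟩, ⟨4, 6, 0, 0, False, False⟩, ?_, ?_⟩ <;> simp [ev, val, tri]
  rw [this] at e
  simp [ev, val] at e

end Pool.Agent.Results.MP_634bde_lc.NotFB
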